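import Mathlib
import Pool.Agent.V11309.Uni.WeakE

/-!
# MP_e299c6_nt, Q1 and Q2: the level sets of the smallest univoque base function are closed

For every `q ∈ (1,2]` the level set `L(q) = {x > 0 : q_s(x) = q}` is closed in `(0,∞)`; in
particular this holds for `q = q_KL`, the least univoque base.
-/

namespace Pool.Agent.Results.MP_e299c6_nt.Closed

/-- `d` is a `q`-expansion of `x`: digits in `{0,1}` (`Fin 2`), `x = ∑_{i≥1} d_i q^{-i}` (the
digit `d_i` of the text is `d (i-1)`). -/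
def IsExpansion (q x : ℝ) (d : ℕ → Fin 2) : Prop :=
  HasSum (fun i : ℕ => (((d i : Fin 2) : ℕ) : ℝ) / q ^ (i + 1)) x

/-- The set `𝒰(x)` of bases `q ∈ (1,2]` in which `x` has exactly one `q`-expansion. -/
def univoqueBases (x : ℝ) : Set ℝ :=
  {q | 1 < q ∧ q ≤ 2 ∧ ∃! d : ℕ → Fin 2, IsExpansion q x d}

/-- The smallest univoque base `q_s(x) = inf 𝒰(x)`. -/
noncomputable def qs (x : ℝ) : ℝ := sInf (univoqueBases x)

/-- The level set `L(q) = {x > 0 : q_s(x) = q}`. -/
def levelSet (q : ℝ) : Set ℝ := {x | 0 < x ∧ qs x = q}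

/-- Q1 and Q2 hold.  The Komornik–Loreti constant `q_KL = min 𝒰` exists and `L(q_KL)` is closed in
`(0,∞)`; for every `q ∈ (1,2]` the level set `L(q)` is closed in `(0,∞)`.  The last clause states
the same with sequences: if `x_k ∈ L(q)`, `x_k → x` and `x > 0`, then `q_s(x) = q`. -/
theorem result :
    (∃ qKL : ℝ, IsLeast (univoqueBases 1) qKL ∧
      IsClosed (Subtype.val ⁻¹' levelSet qKL : Set (Set.Ioi (0 : ℝ)))) ∧
    (∀ q : ℝ, 1 < q → q ≤ 2 →
      IsClosed (Subtype.val ⁻¹' levelSet q : Set (Set.Ioi (0 : ℝ)))) ∧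
    (∀ q : ℝ, 1 < q → q ≤ 2 → ∀ (u : ℕ → ℝ) (x : ℝ), (∀ k, u k ∈ levelSet q) → 0 < x →
      Filter.Tendsto u Filter.atTop (nhds x) → qs x = q) := by
  have hlev : ∀ q, levelSet q = V11309.Uni.Linf q := fun _ => rfl
  have main : ∀ q : ℝ, 1 < q → q ≤ 2 → ∀ x, 0 < x → x ∈ closure (levelSet q) →
      x ∈ levelSet q := by
    intro q hq hq2 x hx hcl
    rcases lt_or_eq_of_le hq2 with h | h
    · rw [hlev] at hcl ⊢
      exact V11309.Uni.Linf_closed hq h hx hcl
    · rw [h, hlev, V11309.Uni.Linf_two, closure_empty] at hcl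
      exact absurd hcl (Set.notMem_empty x)
  have hclosed : ∀ q : ℝ, 1 < q → q ≤ 2 →
      IsClosed (Subtype.val ⁻¹' levelSet q : Set (Set.Ioi (0 : ℝ))) := by
    intro q hq hq2
    apply isClosed_of_closure_subset
    intro x hx
    exact main q hq hq2 x.1 x.2 (continuous_subtype_val.closure_preimage_subset _ hx)
  obtain ⟨h1, h2⟩ := V11309.Uni.KL_least
  refine ⟨⟨sInf (univoqueBases 1), h1, hclosed _ h1.1.1 h1.1.2.1⟩, hclosed, ?_⟩
  intro q hq hq2 u x hu hx hlim
  exact (main q hq hq2 x hx (mem_closure_of_tendsto hlim (Filter.Eventually.of_forall hu))).2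

end Pool.Agent.Results.MP_e299c6_nt.Closed
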